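import Pool.Agent.Helper45.QPerm.FourTop
import Pool.Agent.Helper45.QPerm.GL2
import Pool.Agent.Helper45.QPerm.Exist
import Pool.Agent.Helper45.QPerm.Angle
import Pool.Agent.Helper45.QPerm.Dihedral2

/-!
# The four topologies on the trace space of `C(S_n^+)`

For `n ≥ 5` the four topologies (weak-*, `d₁`, `d_∧`, total variation) on the tracial states of
`C(S_n^+)` are pairwise distinct. For `n = 4` the weak-* topology and the topology of `d₁` coincide,
while the topologies of `d₁`, `d_∧` and the total variation topology are pairwise distinct.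
-/

namespace Pool.Agent.Results.MP_ac7c8e_an.FourTopologies

open Helper45.QPerm

theorem result :
    (∀ n : ℕ, ∃ (A : Type) (_ : CStarAlgebra A) (u : Fin n → Fin n → A),
      IsQuantumPermutationAlgebra n A u) ∧
    ∀ (n : ℕ) (A : Type) [CStarAlgebra A] (u : Fin n → Fin n → A),
      IsQuantumPermutationAlgebra n A u → 4 ≤ n →
        (topOne u ≠ topWedge u ∧ topWedge u ≠ topTV A ∧ topOne u ≠ topTV A ∧
          topWeak A ≠ topWedge u ∧ topWeak A ≠ topTV A) ∧
        (n = 4 → topWeak A = topOne u) ∧ (5 ≤ n → topWeak A ≠ topOne u) := by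
  refine ⟨exists_isQuantumPermutationAlgebra, ?_⟩
  intro n A _ u hA hn
  refine ⟨?_, ?_, ?_⟩
  · obtain ⟨m, rfl⟩ : ∃ m, n = 2 + 2 + m := Nat.exists_eq_add_of_le hn
    obtain ⟨U, hU, hU'⟩ := exists_open_wedge_not_one hA
    obtain ⟨V, hV, hV'⟩ := exists_open_TV_not_wedge hA
    have h1 := topOne_le_topWeak hA
    have h2 := topWedge_le_topOne hA
    refine ⟨?_, ?_, ?_, ?_, ?_⟩
    · intro h
      exact hU' (h ▸ hU)
    · intro h
      exact hV' (h.symm ▸ hV)
    · intro h
      exact hV' (h2 V (h.symm ▸ hV))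
    · intro h
      exact hU' (h1 U (h.symm ▸ hU))
    · intro h
      exact hV' (h2 V (h1 V (h.symm ▸ hV)))
  · rintro rfl
    exact (topOne_eq_topWeak hA).symm
  · intro hn5
    obtain ⟨m, rfl⟩ : ∃ m, n = 2 + 3 + m := Nat.exists_eq_add_of_le hn5
    obtain ⟨U, hU, hU'⟩ := exists_open_one_not_weak hA
    intro h
    exact hU' (h.symm ▸ hU)

end Pool.Agent.Results.MP_ac7c8e_an.FourTopologies
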